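import Pool.Agent.N582.ESMain

/-!
# STARS EQUITABLE 2-CHOOSABILITY is NP-hard

The reduction starts from the subset sum problem. The items are first turned into `R` items whose
sum is `4 S` such that the subset sum instance is solvable if and only if some items have the
sum `2 S`. Let `X > 4 S`. The instance consists of stars with `w + 1` leaves, where `w = 2 X + c` for
an item `c`, `w = 2 X` for `1000 R` stars, and `w = 3 X` for `1000 R` stars.

If all lists are `{0, 1}`, then an equitable colouring exists if and only if the stars can be split
into two sets with the same sum of the numbers `w`, that is, if some items have the sum `2 S`. We
show that these lists are the worst ones: if such a splitting exists, then there is an equitable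
colouring for all lists. For this, call a vertex forced if its colour is determined by the colour of
the centre of its star. An equitable colouring exists if the centres can be coloured in such a way
that no colour is forced on more than half of the vertices. For each colour `c`, let `T c` be the
number of vertices on which `c` is forced, summed over the two possible colours of each centre. If
`T c` is close to the number `N` of all vertices for at most one colour `c`, then balancing vectors by
signs shows that the colours of the centres can be chosen. Otherwise there are exactly two such
colours `c1` and `c2`, and for all but a small part of the stars the list of the centre is
`{c1, c2}`. If this holds for all stars, then we use the given splitting. If there is at least one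
exceptional star, then we colour the centres of the exceptional stars such that `c1` and `c2` are
together forced on at most half of the vertices of these stars, and we find an
approximate splitting of the other stars by using only the stars with `w = 2 X` and `w = 3 X`; the
room which is needed for this is gained at the exceptional star.
-/

set_option autoImplicit false

namespace Pool.Agent.Results.MP_5b98da_lc.NPHard

open Pool.Agent.NPC Pool.Agent.N582.ES

/-- **STARS EQUITABLE 2-CHOOSABILITY is NP-hard** (the numbers are encoded in binary), also if all
stars have at least one leaf. -/
theorem result : NPHardP StarsEq2Choosable ∧
    NPHardP (fun m : List ℕ => (∀ k ∈ m, 0 < k) ∧ StarsEq2Choosable m) :=
  ⟨npHard, npHard_pos⟩

end Pool.Agent.Results.MP_5b98da_lc.NPHard
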